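import Pool.Agent.H51.ERA.Base
import Pool.Agent.H51.ERA.Stmts

/-!
MP_e0047e_lc, board `era`, module CNW: letter counts of the word `WW s t b`.
-/

set_option autoImplicit false

namespace Pool.Agent.H68.ERA

open Pool.Agent.H51.ERA

theorem vs_flatMap_nil {α : Type} (l : List α) (f : α → List Ltr) (h : ∀ x ∈ l, vs (f x) = []) :
    vs (l.flatMap f) = [] := by
  induction l with
  | nil => rfl
  | cons a l ih =>
    rw [List.flatMap_cons, vs_append, h a List.mem_cons_self,
      ih (fun x hx => h x (List.mem_cons_of_mem _ hx))]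
    rfl

theorem count_dd_vl (v : List (Fin 4)) : (v.map Ltr.vl).count Ltr.dd = 0 := by
  rw [List.count_eq_zero]
  intro h
  obtain ⟨a, _, ha⟩ := List.mem_map.1 h
  exact Ltr.noConfusion ha

theorem count_flatMap_range (n : ℕ) (f : ℕ → List Ltr) (c : ℕ)
    (h0 : (f 0).count Ltr.dd = c) (h : ∀ i, 0 < i → (f i).count Ltr.dd = 0) :
    ((List.range (n + 1)).flatMap f).count Ltr.dd = c := by
  induction n with
  | zero => simpa using h0
  | succ n ih =>
    rw [List.range_succ, List.flatMap_append, List.count_append, ih]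
    simp [h (n + 1) (Nat.succ_pos n)]

theorem ty_ge (s t : ℕ) (b : ℕ → Bool) (j : ℕ) (h : gg s t ≤ j) : ¬ (ty s t b j < 2) := by
  unfold ty
  rw [if_neg (Nat.not_lt.2 h)]
  split_ifs <;> decide

theorem ty_out (s t : ℕ) (b : ℕ → Bool) (j : ℕ) (hj : j < gg s t)
    (h : ¬ (lam s ≤ j ∧ j < lam s + t)) : ¬ (ty s t b j < 2) := by
  unfold ty
  rw [Nat.mod_eq_of_lt hj, if_neg h]
  decide

theorem ty_in (s t : ℕ) (b : ℕ → Bool) (x : ℕ) (hx : x < t) :
    ty s t b (lam s + x) = (if b x then 1 else 0) := by
  have hj : lam s + x < gg s t := by unfold gg; omega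
  unfold ty
  rw [Nat.mod_eq_of_lt hj, if_pos ⟨Nat.le_add_right _ _, by omega⟩, if_pos hj,
    Nat.add_sub_cancel_left]

theorem filter_vpart (s t : ℕ) (b : ℕ → Bool) :
    (vpart s t b).filter (fun τ => decide (τ < 2)) = bits t b := by
  have hnn : nn s t = lam s + t + (ll s t + gg s t * DD t) := by
    unfold nn gg; ring
  have hsplit : List.range (nn s t) =
      List.range (lam s) ++ (List.range t).map (fun x => lam s + x) ++
        (List.range (ll s t + gg s t * DD t)).map (fun x => lam s + t + x) := by
    rw [hnn, List.range_add, List.range_add]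
  unfold vpart bits
  rw [hsplit, List.map_append, List.map_append, List.filter_append, List.filter_append]
  have h1 : ((List.range (lam s)).map (ty s t b)).filter (fun τ => decide (τ < 2)) = [] := by
    rw [List.filter_eq_nil_iff]
    intro a ha
    obtain ⟨j, hj, rfl⟩ := List.mem_map.1 ha
    rw [List.mem_range] at hj
    have := ty_out s t b j (by unfold gg; omega) (by omega)
    simpa using this
  have h3 : (((List.range (ll s t + gg s t * DD t)).map (fun x => lam s + t + x)).map
      (ty s t b)).filter (fun τ => decide (τ < 2)) = [] := by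
    rw [List.filter_eq_nil_iff]
    intro a ha
    obtain ⟨j, hj, rfl⟩ := List.mem_map.1 ha
    obtain ⟨x, hx, rfl⟩ := List.mem_map.1 hj
    by_cases hc : lam s + t + x < gg s t
    · have := ty_out s t b (lam s + t + x) hc (by omega)
      simpa using this
    · have := ty_ge s t b (lam s + t + x) (by omega)
      simpa using this
  rw [h1, h3, List.nil_append, List.append_nil, List.map_map]
  have h2 : (List.range t).map (ty s t b ∘ fun x => lam s + x) =
      (List.range t).map (fun j => if b j then 1 else 0) := by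
    apply List.map_congr_left
    intro x hx
    exact ty_in s t b x (List.mem_range.1 hx)
  rw [h2, List.filter_eq_self]
  intro a ha
  obtain ⟨x, _, rfl⟩ := List.mem_map.1 ha
  cases b x <;> decide

theorem CNW_thm (hTLN : TLNStmt) (hFBV : FBVStmt) : CNWStmt := by
  intro s t b
  have hB : vs (Bpart s t b) = [] :=
    vs_flatMap_nil _ _ (fun i _ => (hTLN s t b i (DD t) [] _).2.2.2.1)
  have hfil := filter_vpart s t b
  refine ⟨?_, ?_, hfil, ?_⟩
  · rw [WW, vs_append, vs_vl, hB, List.append_nil]
  · rw [WW, List.count_append, count_dd_vl, Nat.zero_add]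
    have hk : kk s = 2 * s + 1 := rfl
    unfold Bpart
    rw [hk]
    apply count_flatMap_range
    · rw [if_pos rfl, (hTLN s t b 0 (DD t) [] _).2.2.2.2]
      exact Nat.min_eq_left (le_of_lt (hFBV.2.1 t b).2)
    · intro i hi
      rw [if_neg (by omega), (hTLN s t b i (DD t) [] _).2.2.2.2]
      simp
  · rw [hFBV.1 (vpart s t b), hfil]
    rfl

end Pool.Agent.H68.ERA
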